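import Pool.Agent.Lib.MP_334071_al.Gen

/-!
MP_334071_al: for every odd multiple `n = 3 r` of three and every rank at least two, the subgroup
of the free Burnside group of exponent `n` generated by `uʳ v⁻ʳ` and `u⁻ʳ vʳ` (`u`, `v` two of the
free generators) is not isomorphic to the Burnside `n`-product of two cyclic groups.
-/

set_option autoImplicit false

namespace Pool.Agent.Results.MP_334071_al.MultiplesOfThree

universe w1 w2 w3

/-- The free Burnside group `B(ι, n)`: the free group on the set `ι` modulo the normal subgroup
generated by all `n`-th powers. Its rank is the cardinality of `ι`. -/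
abbrev FreeBurnside (ι : Type w1) (n : ℕ) : Type w1 :=
  FreeGroup ι ⧸ Subgroup.normalClosure (Set.range fun w : FreeGroup ι => w ^ n)

/-- The Burnside `n`-product of two groups: their free product modulo the normal subgroup
generated by all `n`-th powers. -/
abbrev BurnsideProduct (n : ℕ) (A : Type w2) (C : Type w3) [Group A] [Group C] :
    Type (max w2 w3) :=
  Monoid.Coprod A C ⧸ Subgroup.normalClosure (Set.range fun g : Monoid.Coprod A C => g ^ n)

/-- Let `n = 3 r` be odd, `u ≠ v` two free generators of the free Burnside group of exponent `n`
on any set `ι` with at least two elements. The subgroup generated by the two elements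
`uʳ v⁻ʳ` and `u⁻ʳ vʳ` is not isomorphic to the Burnside `n`-product of two cyclic groups. -/
theorem result {n r : ℕ} (hodd : Odd n) (hn : n = 3 * r) {ι : Type w1} {i j : ι} (hij : i ≠ j)
    (u v : FreeBurnside ι n) (hu : u = QuotientGroup.mk (FreeGroup.of i))
    (hv : v = QuotientGroup.mk (FreeGroup.of j))
    (A : Type w2) (C : Type w3) [Group A] [Group C] [IsCyclic A] [IsCyclic C] :
    IsEmpty (↥(Subgroup.closure
      ({u ^ r * (v ^ r)⁻¹, (u ^ r)⁻¹ * v ^ r} : Set (FreeBurnside ι n))) ≃*
        BurnsideProduct n A C) :=
  Pool.Agent.MP334071.Gen.main hodd hn hij u v hu hv A C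

end Pool.Agent.Results.MP_334071_al.MultiplesOfThree
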